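import Mathlib
import Pool.Agent.H49.LocAutMain

/-!
Tangent algebra of the group of local automorphisms versus local derivations.

For every finite-dimensional (not necessarily associative) algebra over `ℝ` or `ℂ` the tangent
algebra of `LocAut` equals `LocDer` as a subset of the endomorphism algebra.  In particular the two
Lie algebras are always isomorphic, which answers Q1 in the affirmative.

The algebra is a finite-dimensional normed space `A` over `𝕜 = ℝ` or `ℂ` together with an arbitrary
bilinear product `mul`; every linear endomorphism of `A` is continuous, so that `A →L[𝕜] A` is the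
algebra of all linear endomorphisms of `A`, and its group of units is `GL(A)`.
-/

set_option autoImplicit false

namespace Pool.Agent.Results.MP_9b03f8_al.TangentLocAut

open Set NormedSpace

variable {𝕜 A : Type*} [RCLike 𝕜] [NormedAddCommGroup A] [NormedSpace 𝕜 A]

/-- `φ` is an automorphism of the algebra whose product is the bilinear map `mul`: a bijective
linear map preserving the product. -/
def IsAut (mul : A →ₗ[𝕜] A →ₗ[𝕜] A) (φ : A →L[𝕜] A) : Prop :=
  Function.Bijective φ ∧ ∀ a b, φ (mul a b) = mul (φ a) (φ b)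

/-- `D` is a derivation of the algebra whose product is the bilinear map `mul`. -/
def IsDer (mul : A →ₗ[𝕜] A →ₗ[𝕜] A) (D : A →L[𝕜] A) : Prop :=
  ∀ a b, D (mul a b) = mul (D a) b + mul a (D b)

/-- The local automorphisms: linear maps agreeing at each point with some automorphism. -/
def LocAut (mul : A →ₗ[𝕜] A →ₗ[𝕜] A) : Set (A →L[𝕜] A) :=
  {φ | ∀ x, ∃ ψ, IsAut mul ψ ∧ φ x = ψ x}

/-- The local derivations: linear maps agreeing at each point with some derivation. -/
def LocDer (mul : A →ₗ[𝕜] A →ₗ[𝕜] A) : Set (A →L[𝕜] A) :=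
  {Δ | ∀ x, ∃ D, IsDer mul D ∧ Δ x = D x}

/-- The tangent algebra of a subgroup `G` of `GL(A)`: all `X` with `exp (t X) ∈ G` for every real
number `t`. -/
def tangentAlgebra (G : Set (A →L[𝕜] A)) : Set (A →L[𝕜] A) :=
  {X | ∀ t : ℝ, exp ((t : 𝕜) • X) ∈ G}

/-- **Main theorem.** Let `A` be a finite-dimensional algebra over `𝕜 = ℝ` or `ℂ` with product the
bilinear map `mul`.  The local automorphisms form a subgroup `G` of `GL(A)`, the local derivations
form a linear subspace `L` of `End(A)` closed under the commutator bracket (a Lie subalgebra), and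
`L` is exactly the tangent algebra of `G`. -/
theorem result {𝕜 A : Type*} [RCLike 𝕜] [NormedAddCommGroup A] [NormedSpace 𝕜 A]
    [FiniteDimensional 𝕜 A] (mul : A →ₗ[𝕜] A →ₗ[𝕜] A) :
    (∃ G : Subgroup (A →L[𝕜] A)ˣ, LocAut mul = (fun g : (A →L[𝕜] A)ˣ => (g : A →L[𝕜] A)) '' G) ∧
    ∃ L : Submodule 𝕜 (A →L[𝕜] A), (∀ X ∈ L, ∀ Y ∈ L, X * Y - Y * X ∈ L) ∧
      (L : Set (A →L[𝕜] A)) = LocDer mul ∧
      (L : Set (A →L[𝕜] A)) = tangentAlgebra (LocAut mul) :=
  Pool.Agent.H49.LocAutMain.main mul

end Pool.Agent.Results.MP_9b03f8_al.TangentLocAut
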